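import Pool.Agent.H24.UG.T6
import Pool.Agent.H75.AG.S6

/-!
UNIFORM LOCAL GAP (`MP_c59857_nt`): row US6 (the parameters), adapted from `H75/AG/S6.lean`.
-/

set_option autoImplicit false

open MeasureTheory ProbabilityTheory Filter Topology Finset
open scoped Nat ENNReal

namespace Pool.Agent.H85.ULG

open Pool.Agent.H24.UG
open Pool.Agent.H75.AG
open Pool.Agent.H67.AG (avgP ul Inv Rt Av Dlt Mis Sw SwE)

theorem pf_US6 (hul : Pool.Agent.H67.AG.T_UL) (hme : Pool.Agent.H67.AG.T_ME)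
    (_hna : Pool.Agent.H67.AG.T_NA) (hs1 : Pool.Agent.H67.AG.T_S1) : T_US6 := by
  intro d γ η hγ _ hη hsum hw
  set δ : ℝ := η / ((d.n : ℝ) ^ d.k + 1) with hδ
  have hnk : (0 : ℝ) < (d.n : ℝ) ^ d.k + 1 := by positivity
  have hδ0 : 0 < δ := by positivity
  obtain ⟨L, hL0, hL⟩ := hs1 d (δ ^ 2) (by positivity)
  obtain ⟨L₂, hL₂, hsG⟩ := sum_hG d hme η hη hsum
  have hD := Dlt_pos d.β
  refine ⟨L, L₂, L + Dlt d.β * L₂ + Dlt d.β + 1, hL0, hL₂, fun e hmv => ⟨fun σ _ A hA => ?_, ?_⟩⟩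
  · have hk : (0 : ℝ) ≤ d.k := Nat.cast_nonneg _
    have hX1 : 2 * d.k / (L : ℝ) * ∑ l ∈ range L, ∫ ω in A, e.mv l ω ∂e.P ≤ 2 * d.k * η :=
      mean_mv L hL0 _ (by positivity) _ _ fun l hl => mv_set e l A η (hmv l (by
        have := Finset.mem_range.1 hl
        omega))
    have hX2 : e.E2 L A ≤ η := by
      refine (E2_le e hul L δ hδ0 hL A).trans ?_
      rw [hδ, mul_div_assoc', div_le_iff₀ hnk]
      nlinarith
    have hX3 : ∀ i, e.E3 L₂ i A ≤ 6 * η + ∑ a, ∑ b, ∫ ω, |hG d L₂ a b i ω| ∂d.P' := by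
      intro i
      have h3 : 4 / (L₂ : ℝ) * ∑ l ∈ range L₂, ∫ ω in A, e.mv (Dlt d.β * l) ω ∂e.P ≤ 4 * η :=
        mean_mv L₂ hL₂ _ (by norm_num) _ _ fun l hl => mv_set e _ A η (hmv _ (by
          have h4 := Finset.mem_range.1 hl
          have h5 : Dlt d.β * l ≤ Dlt d.β * L₂ := Nat.mul_le_mul_left _ h4.le
          omega))
      have h4 : 2 / (Dlt d.β : ℝ) * ∑ r ∈ range (Dlt d.β), ∫ ω in A, e.mv r ω ∂e.P ≤ 2 * η :=
        mean_mv _ hD _ (by norm_num) _ _ fun l hl => mv_set e _ A η (hmv _ (by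
          have h4 := Finset.mem_range.1 hl
          omega))
      have h5 : ∑ a, ∑ b, ∫ ω in A, |Av d.T' (d.W * Dlt d.β) L₂ (d.gg a b i) (e.g ω) -
          (d.P'[d.gg a b i | Inv d.T' d.W]) (e.g ω)| ∂e.P ≤
          ∑ a, ∑ b, ∫ ω, |hG d L₂ a b i ω| ∂d.P' :=
        Finset.sum_le_sum fun a _ => Finset.sum_le_sum fun b _ =>
          set_comp_le e (hG d L₂ a b i) (hG_meas d L₂ a b i) (hG_int d L₂ a b i) A
      unfold SwE.E3
      linarith
    have hX3' : ∑ i, e.E3 L₂ i A ≤ 6 * d.k * η + 2 * η := by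
      calc ∑ i, e.E3 L₂ i A ≤
            ∑ i : Fin d.k, (6 * η + ∑ a, ∑ b, ∫ ω, |hG d L₂ a b i ω| ∂d.P') :=
            Finset.sum_le_sum fun i _ => hX3 i
        _ = d.k * (6 * η) + ∑ i, ∑ a, ∑ b, ∫ ω, |hG d L₂ a b i ω| ∂d.P' := by
            rw [Finset.sum_add_distrib, Finset.sum_const, card_univ, Fintype.card_fin,
              nsmul_eq_mul]
        _ ≤ 6 * d.k * η + 2 * η := by linarith
    have hX3'' : d.k * ∑ i, e.E3 L₂ i A ≤ d.k * (6 * d.k * η + 2 * η) :=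
      mul_le_mul_of_nonneg_left hX3' hk
    have hX4 : (d.k : ℝ) ^ 2 / d.w * e.P.real A ≤ η := by
      have h6 : e.P.real A ≤ 1 := measureReal_le_one
      have h7 : 0 ≤ (d.k : ℝ) ^ 2 / d.w := by positivity
      calc (d.k : ℝ) ^ 2 / d.w * e.P.real A ≤ (d.k : ℝ) ^ 2 / d.w :=
            mul_le_of_le_one_right h7 h6
        _ ≤ η := hw
    unfold EX
    nlinarith [mul_nonneg hk hη.le, mul_nonneg (mul_nonneg hk hk) hη.le]
  · have hk : (0 : ℝ) ≤ d.k := Nat.cast_nonneg _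
    have hnn : 0 ≤ᵐ[e.P] e.P[e.mv 1 | Inv e.T d.W] :=
      condExp_nonneg (Eventually.of_forall fun ω => mv_nn e 1 ω)
    have hnn' : 0 ≤ᵐ[e.P] fun ω => (d.k : ℝ) * (e.P[e.mv 1 | Inv e.T d.W]) ω := by
      filter_upwards [hnn] with ω hω
      exact mul_nonneg hk hω
    have hmar := mul_meas_ge_le_integral_of_nonneg hnn' (integrable_condExp.const_mul _)
      (γ / 100)
    rw [integral_const_mul, integral_condExp (invle e), mv_integral] at hmar
    have h8 := hmv 1 (by omega)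
    have h9 : e.P.real {ω | γ / 100 < (d.k : ℝ) * (e.P[e.mv 1 | Inv e.T d.W]) ω} ≤
        e.P.real {ω | γ / 100 ≤ (d.k : ℝ) * (e.P[e.mv 1 | Inv e.T d.W]) ω} :=
      measureReal_mono (by
        intro ω hω
        rw [Set.mem_ofPred_eq] at hω ⊢
        exact hω.le)
    have h10 : (d.k : ℝ) * e.P.real {ω | e.s (e.T^[d.W * 1] ω) ≠ e.s ω} ≤ d.k * η :=
      mul_le_mul_of_nonneg_left h8 hk
    rw [le_div_iff₀ hγ]
    have h11 : γ / 100 * e.P.real {ω | γ / 100 < (d.k : ℝ) * (e.P[e.mv 1 | Inv e.T d.W]) ω} ≤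
        d.k * η := by
      refine (mul_le_mul_of_nonneg_left h9 (by positivity)).trans ?_
      exact hmar.trans h10
    linarith

end Pool.Agent.H85.ULG
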